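import Pool.Agent.N422.NWS.Stm

/-! Project NWS, package TRIG (helper540 for helper136). -/

set_option autoImplicit false

open Finset

namespace Pool.Agent.U540.NWS

open Pool.Agent.N422.NW Pool.Agent.N422.NWS

lemma cosh_sub_one_le {w : ℝ} (hw : w ^ 2 ≤ 1) : Real.cosh w - 1 ≤ w ^ 2 := by
  have h1 := Real.cosh_le_exp_half_sq w
  have h2 : |w ^ 2 / 2| ≤ 1 := by
    rw [abs_of_nonneg (by positivity)]
    linarith
  have h3 := Real.abs_exp_sub_one_le h2
  rw [abs_of_nonneg (show (0 : ℝ) ≤ w ^ 2 / 2 by positivity)] at h3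
  have h4 := le_abs_self (Real.exp (w ^ 2 / 2) - 1)
  linarith

lemma sq_half_le_cosh {w : ℝ} (hw : 0 ≤ w) : w ^ 2 / 2 ≤ Real.cosh w - 1 := by
  have h1 : Real.cosh w = 2 * Real.sinh (w / 2) ^ 2 + 1 := by
    have h := Real.cosh_two_mul (w / 2)
    rw [show 2 * (w / 2) = w by ring] at h
    have h' := Real.cosh_sq (w / 2)
    linarith
  have h2 : w / 2 ≤ Real.sinh (w / 2) := Real.self_le_sinh_iff.2 (by positivity)
  have h3 : (w / 2) ^ 2 ≤ Real.sinh (w / 2) ^ 2 := pow_le_pow_left₀ (by positivity) h2 2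
  rw [h1]
  nlinarith

lemma one_sub_re {w : ℂ} (hw : ‖w‖ = 1) : 1 - w.re = ‖w - 1‖ ^ 2 / 2 := by
  have h1 : w.re ^ 2 + w.im ^ 2 = 1 := by
    have h := Complex.sq_norm w
    rw [hw, Complex.normSq_apply] at h
    nlinarith
  rw [Complex.sq_norm, Complex.normSq_apply]
  simp only [Complex.sub_re, Complex.one_re, Complex.sub_im, Complex.one_im]
  nlinarith

lemma one_sub_re_pow {w : ℂ} (hw : ‖w‖ = 1) (h : ℕ) :
    1 - (w ^ h).re ≤ h ^ 2 * (1 - w.re) := by
  rw [one_sub_re hw, one_sub_re (by rw [norm_pow, hw, one_pow])]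
  have h1 : ‖w ^ h - 1‖ ≤ h * ‖w - 1‖ := by
    rw [← geom_sum_mul, norm_mul]
    refine mul_le_mul_of_nonneg_right ?_ (norm_nonneg _)
    refine (norm_sum_le _ _).trans ?_
    simp [norm_pow, hw]
  have h2 : ‖w ^ h - 1‖ ^ 2 ≤ (h * ‖w - 1‖) ^ 2 := pow_le_pow_left₀ (norm_nonneg _) h1 2
  nlinarith

theorem t_TRIG (hA : Pool.Agent.N422.NW.S_AV) : S_TRIG := by
  intro v t hv ht hvt
  have hv1 : (1 : ℝ) ≤ v := by exact_mod_cast hv
  have hx : 0 < (v : ℝ) * t := by positivity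
  refine ⟨fun z hz => ?_, fun x => ?_⟩
  · have hzv : ‖z ^ v‖ = 1 := by rw [norm_pow, hz, one_pow]
    have hre : (z ^ v).re ≤ 1 := (Complex.re_le_norm _).trans hzv.le
    have hre2 : -1 ≤ (z ^ v).re := by
      have := (abs_le.1 ((Complex.abs_re_le_norm (z ^ v)).trans hzv.le)).1
      exact this
    have hlow := sq_half_le_cosh hx.le
    have hup : Real.cosh (v * t) - 1 ≤ (v * t) ^ 2 := cosh_sub_one_le (by nlinarith)
    refine ⟨?_, ?_, fun h hh hht => ?_⟩
    · unfold cr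
      nlinarith
    · unfold cr
      nlinarith
    · have hh1 : (1 : ℝ) ≤ h := by exact_mod_cast hh
      have h1 : Real.cosh (h * (v * t)) - 1 ≤ (h * (v * t)) ^ 2 := by
        apply cosh_sub_one_le
        have : 0 ≤ (h : ℝ) * (v * t) := by positivity
        nlinarith
      have h2 := one_sub_re_pow hzv h
      unfold cr
      rw [pow_mul]
      rw [show ((v * h : ℕ) : ℝ) * t = h * (v * t) by push_cast; ring]
      have h3 : (0 : ℝ) ≤ h ^ 2 := by positivity
      have h4 : (h * (v * t)) ^ 2 ≤ 2 * (h : ℝ) ^ 2 * (Real.cosh (v * t) - 1) := by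
        nlinarith
      have h5 : (h : ℝ) ^ 2 * (1 - (z ^ v).re) ≤ 2 * h ^ 2 * (1 - (z ^ v).re) := by
        nlinarith
      nlinarith
  · obtain ⟨_, h2, h3, h4⟩ := hA x t ht
    refine ⟨?_, ?_, ?_⟩
    · unfold cr
      exact continuous_const.sub (Complex.continuous_re.comp (h2.pow x))
    · exact h3
    · exact h4

end Pool.Agent.U540.NWS
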